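import Pool.Agent.H429R4.Sem.Avg

/-!
# Satisfiable and far from satisfiable formulas look the same to circuits with few transforms
-/

namespace Pool.Agent.H429R4.Sem

open Matrix Finset
open Pool.Agent.H525R2.Sym (Clause Holds IsThreeCNF Satisfiable numTrue bits change)
open Pool.Agent.H525R2

set_option linter.unusedSectionVars false

theorem abs_card_sub_le {Ω : Type} [Fintype Ω] (σ : Equiv.Perm Ω) (P Q : Ω → Prop)
    [DecidablePred P] [DecidablePred Q] (Bad : Ω → Prop) [DecidablePred Bad]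
    (h : ∀ ω, ¬ Bad ω → (P (σ ω) ↔ Q ω)) :
    |((univ.filter P).card : ℝ) - (univ.filter Q).card| ≤ (univ.filter Bad).card := by
  classical
  have h1 : (univ.filter P).card = (univ.filter fun ω => P (σ ω)).card := by
    refine (card_bij (fun ω _ => σ ω) ?_ ?_ ?_).symm
    · intro ω hω
      simpa using hω
    · intro ω _ ω' _ e
      exact σ.injective e
    · intro ω hω
      refine ⟨σ.symm ω, ?_, by simp⟩
      simpa using hω
  have h2 : (univ.filter fun ω => P (σ ω)) ⊆ univ.filter Q ∪ univ.filter Bad := by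
    intro ω hω
    simp only [mem_filter, mem_univ, true_and, mem_union] at hω ⊢
    by_cases hb : Bad ω
    · exact Or.inr hb
    · exact Or.inl ((h ω hb).1 hω)
  have h3 : univ.filter Q ⊆ (univ.filter fun ω => P (σ ω)) ∪ univ.filter Bad := by
    intro ω hω
    simp only [mem_filter, mem_univ, true_and, mem_union] at hω ⊢
    by_cases hb : Bad ω
    · exact Or.inr hb
    · exact Or.inl ((h ω hb).2 hω)
  have h4 := (card_le_card h2).trans (card_union_le _ _)
  have h5 := (card_le_card h3).trans (card_union_le _ _)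
  have h4' : ((univ.filter fun ω => P (σ ω)).card : ℝ) ≤
      (univ.filter Q).card + (univ.filter Bad).card := by exact_mod_cast h4
  have h5' : ((univ.filter Q).card : ℝ) ≤
      (univ.filter fun ω => P (σ ω)).card + (univ.filter Bad).card := by exact_mod_cast h5
  rw [h1, abs_le]
  constructor <;> linarith

open Classical in
/-- Main theorem: there are samples of satisfiable formulas and of formulas that are far from
satisfiable which no circuit with few transforms can tell apart. -/
theorem indistinguishable {ε δ : ℝ} (hε : 0 < ε) (hδ : 0 < δ) :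
    ∃ K : ℕ, ∀ (V : Type) [Fintype V] [DecidableEq V] (Γ : AddSubgroup (V → ZMod 2)),
      K ^ K < Nat.card Γ →
      ∃ (Ω : Type) (_ : Fintype Ω) (_ : Nonempty Ω) (φ ψ : Ω → Finset (Clause V)),
        (∀ ω, IsThreeCNF (φ ω) ∧ IsThreeCNF (ψ ω) ∧ (φ ω).card = (ψ ω).card ∧
          0 < (ψ ω).card ∧ (ψ ω).card ≤ K * Fintype.card V ∧ Satisfiable (φ ω) ∧
          ∀ α, (numTrue α (ψ ω) : ℝ) ≤ (7 / 8 + ε) * (ψ ω).card) ∧
        ∀ (D L : Type) (C : Circuit (Clause V) D L) (acc : Set D),
          (K * C.totalViews Γ) ^ K < Nat.card Γ →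
          |((univ.filter fun ω => C.output (bits (φ ω)) ∈ acc).card : ℝ) -
            (univ.filter fun ω => C.output (bits (ψ ω)) ∈ acc).card| ≤ δ * Fintype.card Ω := by
  obtain ⟨Δ, hΔ⟩ : ∃ Δ : ℕ, 2 / ε ^ 2 ≤ Δ := exists_nat_ge _
  have hΔ0 : 0 < Δ := by
    have h1 : (0 : ℝ) < 2 / ε ^ 2 := by positivity
    exact_mod_cast lt_of_lt_of_le h1 hΔ
  set δ' := min (δ / 2) (1 / 2) with hδ'
  have hδ'0 : 0 < δ' := lt_min (by linarith) (by norm_num)
  obtain ⟨m₀, hm₀⟩ : ∃ m₀ : ℕ, max 64 (32 / δ') ≤ m₀ := exists_nat_ge _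
  have hm64 : 64 ≤ m₀ := by
    have : (64 : ℝ) ≤ m₀ := (le_max_left _ _).trans hm₀
    exact_mod_cast this
  have hmδ : 32 ≤ δ' * m₀ := by
    have : 32 / δ' ≤ m₀ := (le_max_right _ _).trans hm₀
    rw [div_le_iff₀ hδ'0] at this
    linarith
  refine ⟨20 * (64 * m₀ ^ 2 * Δ ^ 2), fun V _ _ Γ hΓ => ?_⟩
  set K := 20 * (64 * m₀ ^ 2 * Δ ^ 2) with hK
  -- the letters on which the group acts arbitrarily
  obtain ⟨I, hI, hcard⟩ := Sym.exists_shattered (Γ : Set (V → ZMod 2)) Γ.zero_mem
    (fun s hs s' hs' => Γ.add_mem hs hs')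
  have hΓI : Nat.card Γ ≤ 2 ^ I.card := hcard
  obtain ⟨ht3, -, hqt, hn⟩ := Sym.arith (Δ := Δ) (S := 1) rfl hΔ0 hm64 hK one_pos
    (by rw [mul_one]; exact lt_of_lt_of_le hΓ hΓI) rfl rfl
  set q := 64 * m₀ ^ 2 * Δ ^ 2 with hq
  set n := I.card / 3 with hndef
  set t := n / q with htdef
  obtain ⟨e⟩ : Nonempty (Fin 3 × Fin n ↪ I) := by
    refine Function.Embedding.nonempty_of_card_le ?_
    rw [Fintype.card_prod, Fintype.card_fin, Fintype.card_fin, Fintype.card_coe]
    omega
  let ι : Fin 3 × Fin n ↪ V := e.trans (Function.Embedding.subtype _)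
  have hι : ∀ p, ι p ∈ I := fun p => (e p).2
  have hsh : ∀ u : Fin 3 × Fin n → ZMod 2, ∃ s ∈ Γ, (fun p => s (ι p)) = u := by
    intro u
    obtain ⟨s, hs, hs'⟩ := hI (Function.extend ι u 0)
    refine ⟨s, hs, funext fun p => ?_⟩
    rw [hs' _ (hι p), ι.injective.extend_apply]
  set M := Δ * n with hMdef
  have hM0 : 0 < M := Nat.mul_pos hΔ0 hn
  let Y := Fin M → Fin 3 → Fin n
  let U := Fin 3 × Fin n → ZMod 2
  let Ω₁ := {y : Y // ∀ x : Fin M → ZMod 2, x ≠ 0 → hammingNorm x < t → x ᵥ* Sym.mat y ≠ 0}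
  have hYcard : (0 : ℝ) < (univ : Finset Y).card := by
    have hne : (univ : Finset Y).Nonempty := ⟨fun _ _ => ⟨0, hn⟩, mem_univ _⟩
    exact_mod_cast hne.card_pos
  -- most systems have no small dependencies
  have hΩ₁ : ((univ : Finset Y).card : ℝ) ≤ 2 * Fintype.card Ω₁ := by
    have h1 := Sym.card_bad_le (Δ := Δ) (m := m₀) (M := M) hMdef hn (by omega)
      (by omega : 0 < t) hmδ hqt (∅ : Finset U) (by simp)
    have h2 : (univ : Finset Y).card ≤
        (univ.filter fun y : Y => ¬ Sym.Good t (∅ : Finset U) y).card + Fintype.card Ω₁ := by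
      rw [← card_filter_add_card_filter_not (s := (univ : Finset Y))
        (fun y : Y => ¬ Sym.Good t (∅ : Finset U) y)]
      refine Nat.add_le_add_left ?_ _
      rw [Fintype.card_subtype]
      refine card_le_card fun y hy => ?_
      rw [mem_filter, not_not] at hy
      rw [mem_filter]
      exact ⟨mem_univ _, hy.2.1⟩
    have h3 : ((univ : Finset Y).card : ℝ) ≤
        (univ.filter fun y : Y => ¬ Sym.Good t (∅ : Finset U) y).card + Fintype.card Ω₁ := by
      exact_mod_cast h2
    have h4 : δ' * (univ : Finset Y).card ≤ 1 / 2 * (univ : Finset Y).card :=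
      mul_le_mul_of_nonneg_right (min_le_right _ _) hYcard.le
    have h5 := h1.trans h4
    linarith
  have hΩ₁pos : (0 : ℝ) < Fintype.card Ω₁ := by linarith
  have hΩ₁ne : Nonempty Ω₁ := by
    rw [← Fintype.card_pos_iff]
    exact_mod_cast hΩ₁pos
  -- far right-hand sides
  have hfar : ∀ y : Y, ∃ b : Fin M → ZMod 2, ∀ α : U,
      ((univ.filter fun j => (Sym.mat y *ᵥ α) j = b j).card : ℝ) ≤ (1 / 2 + ε) * M := by
    intro y
    refine Sym.exists_far (Sym.mat y) hε ?_
    rw [Fintype.card_prod, Fintype.card_fin, Fintype.card_fin]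
    exact Sym.two_pow_mul_exp_lt hMdef hn hΔ hε
  choose far hfar using hfar
  have hinj : ∀ y : Ω₁, Function.Injective y.1 := by
    intro y j j' h
    by_contra hjj
    refine y.2 (Pi.single j 1 + Pi.single j' 1) ?_ ?_ ?_
    · intro h0
      have := congrFun h0 j
      rw [Pi.add_apply, Pi.single_eq_same, Pi.single_eq_of_ne hjj] at this
      simp at this
    · refine lt_of_le_of_lt ?_ (lt_of_lt_of_le (by norm_num : 2 < 3) ht3)
      unfold hammingNorm
      refine le_trans (card_le_card (t := {j, j'}) fun i hi => ?_) (card_le_two)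
      rw [mem_insert, mem_singleton]
      by_contra hcon
      rw [not_or] at hcon
      rw [mem_filter, Pi.add_apply, Pi.single_eq_of_ne hcon.1, Pi.single_eq_of_ne hcon.2] at hi
      simp at hi
    · rw [Matrix.add_vecMul, single_one_vecMul, single_one_vecMul]
      have h1 : Sym.mat y.1 j = Sym.mat y.1 j' := by
        funext p
        unfold Sym.mat
        rw [h]
      have h2 : (Sym.mat y.1).row j = (Sym.mat y.1).row j' := h1
      rw [h2, Sym.add_self_fun]
  refine ⟨Ω₁ × U, inferInstance, inferInstance,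
    fun ω => Sym.sys ι ω.1.1 (Sym.mat ω.1.1 *ᵥ ω.2),
    fun ω => Sym.sys ι ω.1.1 (far ω.1.1 + Sym.mat ω.1.1 *ᵥ ω.2), ?_, ?_⟩
  · rintro ⟨y, u⟩
    simp only
    obtain ⟨s, -, hs⟩ := hsh u
    refine ⟨Sym.sys_three ι _ _, Sym.sys_three ι _ _, ?_, ?_, ?_, ?_, ?_⟩
    · rw [Sym.card_sys ι (hinj y), Sym.card_sys ι (hinj y)]
    · rw [Sym.card_sys ι (hinj y)]
      omega
    · rw [Sym.card_sys ι (hinj y)]
      have h1 : I.card ≤ Fintype.card V := card_le_univ I
      have h2 : 4 * Δ ≤ K := by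
        have h3 : 1 ≤ m₀ ^ 2 * Δ := Nat.mul_pos (by positivity) hΔ0
        calc 4 * Δ = 4 * Δ * 1 := (mul_one _).symm
          _ ≤ 4 * Δ * (m₀ ^ 2 * Δ) := Nat.mul_le_mul_left _ h3
          _ ≤ 20 * (64 * (m₀ ^ 2 * Δ * Δ)) := by nlinarith
          _ = K := by rw [hK, hq]; ring
      calc 4 * M = 4 * Δ * n := by rw [hMdef]; ring
        _ ≤ K * Fintype.card V := Nat.mul_le_mul h2 (by omega)
    · have h1 := flip_sysF ι s y.1 0
      have h2 := congrArg Subtype.val h1
      unfold sysF flip at h2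
      simp only at h2
      rw [zero_add, hs] at h2
      rw [← h2]
      obtain ⟨α, hα⟩ := Sym.sys_zero_satisfiable ι y.1
      refine ⟨α + s, fun c hc => ?_⟩
      rw [mem_image] at hc
      obtain ⟨c, hc, rfl⟩ := hc
      obtain ⟨l, hl, hl'⟩ := hα c hc
      refine ⟨(l.1, l.2 + s l.1), ?_, ?_⟩
      · unfold change
        exact mem_image_of_mem _ hl
      · change α l.1 + s l.1 = l.2 + s l.1
        rw [hl']
    · intro α
      rw [Sym.card_sys ι (hinj y)]
      have h1 := Sym.numTrue_le ι y.1 (far y.1 + Sym.mat y.1 *ᵥ u) α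
      have h2 := hfar y.1 ((fun p => α (ι p)) + u)
      have h3 : (univ.filter fun j => (Sym.mat y.1 *ᵥ fun p => α (ι p)) j =
            (far y.1 + Sym.mat y.1 *ᵥ u) j) =
          univ.filter fun j => (Sym.mat y.1 *ᵥ ((fun p => α (ι p)) + u)) j = far y.1 j := by
        refine filter_congr fun j _ => ?_
        rw [Matrix.mulVec_add, Pi.add_apply, Pi.add_apply]
        generalize (Sym.mat y.1 *ᵥ fun p => α (ι p)) j = v₁
        generalize (Sym.mat y.1 *ᵥ u) j = v₂
        generalize far y.1 j = v₃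
        revert v₁ v₂ v₃
        decide
      rw [h3] at h1
      have h4 : (numTrue α (Sym.sys ι y.1 (far y.1 + Sym.mat y.1 *ᵥ u)) : ℝ) ≤ 3 * M +
          ((univ.filter fun j =>
            (Sym.mat y.1 *ᵥ ((fun p => α (ι p)) + u)) j = far y.1 j).card : ℝ) := by
        exact_mod_cast h1
      have h5 : (0 : ℝ) < M := by exact_mod_cast hM0
      push_cast
      nlinarith
  · intro D L C acc hKS
    have hpos : 0 < C.totalViews Γ := by
      let _ := C.finite
      have h1 : 0 < C.numViews Γ C.out := by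
        unfold Circuit.numViews
        have : Finite (Set.range fun s : Γ => C.view C.out s.1) := Set.finite_range _
        have : Nonempty (Set.range fun s : Γ => C.view C.out s.1) := ⟨⟨_, ⟨0, rfl⟩⟩⟩
        exact Nat.card_pos
      unfold Circuit.totalViews
      exact lt_of_lt_of_le h1 (single_le_sum (fun g _ => Nat.zero_le (C.numViews Γ g))
        (mem_univ C.out))
    obtain ⟨-, hV, -, -⟩ := Sym.arith (Δ := Δ) (S := C.totalViews Γ) hq hΔ0 hm64 hK
      hpos (lt_of_lt_of_le hKS hΓI) hndef htdef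
    have hW : m₀ * (visible ι Γ C).card ≤ m₀ ^ t := by
      refine le_trans (Nat.mul_le_mul_left m₀ ?_) hV
      refine (card_visible_le ι Γ C hsh).trans ?_
      exact Nat.le_self_pow (by norm_num) _
    have hbad := Sym.card_bad_le (Δ := Δ) (m := m₀) (M := M) hMdef hn (by omega)
      (by omega : 0 < t) hmδ hqt (visible ι Γ C) hW
    have hex : ∀ y : Ω₁, ∃ u₀ : U, Sym.Good t (visible ι Γ C) y.1 → ∀ u,
        C.output (bits (Sym.sys ι y.1 (Sym.mat y.1 *ᵥ (u + u₀)))) =
          C.output (bits (Sym.sys ι y.1 (far y.1 + Sym.mat y.1 *ᵥ u))) := by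
      intro y
      by_cases hy : Sym.Good t (visible ι Γ C) y.1
      · obtain ⟨u₀, hu₀⟩ := exists_sign_of_good ι Γ C y.1 (by omega : 1 < t) hy (far y.1)
        exact ⟨u₀, fun _ => hu₀⟩
      · exact ⟨0, fun h => absurd h hy⟩
    choose u₀ hu₀ using hex
    let σ : Equiv.Perm (Ω₁ × U) := Function.Involutive.toPerm
      (fun ω => (ω.1, ω.2 + u₀ ω.1)) (by
        rintro ⟨y, u⟩
        simp only
        rw [add_assoc, Sym.add_self_fun, add_zero])
    refine (abs_card_sub_le σ _ _ (fun ω => ¬ Sym.Good t (visible ι Γ C) ω.1.1) ?_).trans ?_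
    · rintro ⟨y, u⟩ hy
      rw [not_not] at hy
      change C.output (bits (Sym.sys ι y.1 (Sym.mat y.1 *ᵥ (u + u₀ y)))) ∈ acc ↔
        C.output (bits (Sym.sys ι y.1 (far y.1 + Sym.mat y.1 *ᵥ u))) ∈ acc
      rw [hu₀ y hy u]
    · have h1 : (univ.filter fun ω : Ω₁ × U => ¬ Sym.Good t (visible ι Γ C) ω.1.1) =
          (univ.filter fun y : Ω₁ => ¬ Sym.Good t (visible ι Γ C) y.1) ×ˢ (univ : Finset U) := by
        ext ω
        simp
      rw [h1, card_product, Fintype.card_prod]
      have h2 : (univ.filter fun y : Ω₁ => ¬ Sym.Good t (visible ι Γ C) y.1).card ≤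
          (univ.filter fun y : Y => ¬ Sym.Good t (visible ι Γ C) y).card := by
        refine card_le_card_of_injOn (fun y => y.1) ?_ ?_
        · intro y hy
          rw [mem_coe, mem_filter] at hy ⊢
          exact ⟨mem_univ _, hy.2⟩
        · intro y _ y' _ h
          exact Subtype.ext h
      have h3 : ((univ.filter fun y : Ω₁ => ¬ Sym.Good t (visible ι Γ C) y.1).card : ℝ) ≤
          δ * Fintype.card Ω₁ := by
        calc ((univ.filter fun y : Ω₁ => ¬ Sym.Good t (visible ι Γ C) y.1).card : ℝ)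
            ≤ ((univ.filter fun y : Y => ¬ Sym.Good t (visible ι Γ C) y).card : ℝ) := by
              exact_mod_cast h2
          _ ≤ δ' * (univ : Finset Y).card := hbad
          _ ≤ (δ / 2) * (univ : Finset Y).card :=
              mul_le_mul_of_nonneg_right (min_le_left _ _) hYcard.le
          _ ≤ (δ / 2) * (2 * Fintype.card Ω₁) := mul_le_mul_of_nonneg_left hΩ₁ (by linarith)
          _ = δ * Fintype.card Ω₁ := by ring
      push_cast
      rw [card_univ, ← mul_assoc]
      exact mul_le_mul_of_nonneg_right h3 (by positivity)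

end Pool.Agent.H429R4.Sem
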