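import Pool.Agent.H429R4.Sem.Core

/-!
# Two distributions that circuits with few transforms cannot tell apart
-/

namespace Pool.Agent.H429R4.Sem

open Matrix Finset
open Pool.Agent.H525R2.Sym (Clause Holds IsThreeCNF Satisfiable numTrue bits change)
open Pool.Agent.H525R2

set_option linter.unusedSectionVars false

variable {V D L : Type} [Fintype V] [DecidableEq V]

variable {n M : ℕ} (ι : Fin 3 × Fin n ↪ V)

/-- The vectors that are visible to some gate. -/
noncomputable def visible (Γ : AddSubgroup (V → ZMod 2)) (C : Circuit (Clause V) D L) :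
    Finset (Fin 3 × Fin n → ZMod 2) :=
  open Classical in
  univ.filter fun w => ∃ g, ∀ u ∈ fixer ι Γ (equiv_view C g), w ⬝ᵥ u = 0

theorem card_visible_le (Γ : AddSubgroup (V → ZMod 2)) (C : Circuit (Clause V) D L)
    (hsh : ∀ u : Fin 3 × Fin n → ZMod 2, ∃ s ∈ Γ, (fun p => s (ι p)) = u) :
    (visible ι Γ C).card ≤ C.totalViews Γ := by
  classical
  let _ := C.finite
  have h1 : visible ι Γ C ⊆ univ.biUnion fun g : C.Gate =>
      univ.filter fun w => ∀ u ∈ fixer ι Γ (equiv_view C g), w ⬝ᵥ u = 0 := by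
    intro w hw
    simp only [visible, mem_filter, mem_univ, true_and] at hw
    obtain ⟨g, hg⟩ := hw
    simp only [mem_biUnion, mem_univ, true_and, mem_filter]
    exact ⟨g, hg⟩
  refine (card_le_card h1).trans ?_
  refine card_biUnion_le.trans ?_
  unfold Circuit.totalViews
  refine sum_le_sum fun g _ => ?_
  have h2 := Sym.card_annihilator (fixer ι Γ (equiv_view C g))
  have h3 := card_quotient_fixer_le ι Γ (equiv_view C g) hsh
  rw [← h2, Nat.card_eq_fintype_card, Fintype.card_subtype] at h3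
  exact h3

/-- If the system is good for the circuit then all right-hand sides look the same to it, up to a
sign change. -/
theorem exists_sign_of_good (Γ : AddSubgroup (V → ZMod 2)) (C : Circuit (Clause V) D L)
    (y : Fin M → Fin 3 → Fin n) {t : ℕ} (ht : 1 < t) (hy : Sym.Good t (visible ι Γ C) y)
    (b : Fin M → ZMod 2) :
    ∃ u₀ : Fin 3 × Fin n → ZMod 2, ∀ u,
      C.output (bits (Sym.sys ι y (Sym.mat y *ᵥ (u + u₀)))) =
        C.output (bits (Sym.sys ι y (b + Sym.mat y *ᵥ u))) := by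
  classical
  obtain ⟨hy1, hy2⟩ := hy
  have hmid : ∀ g, ∀ x : Fin M → ZMod 2, t ≤ hammingNorm x → hammingNorm x < 2 * t →
      ∃ u ∈ fixer ι Γ (equiv_view C g), (x ᵥ* Sym.mat y) ⬝ᵥ u ≠ 0 := by
    intro g x hx1 hx2
    have h1 := hy2 x hx1 hx2
    simp only [visible, mem_filter, mem_univ, true_and, not_exists, not_forall] at h1
    obtain ⟨u, hu, hu'⟩ := h1 g
    exact ⟨u, hu, hu'⟩
  have hinv : Sym.Inv (Sym.mat y) t (⊤ : Submodule (ZMod 2) (Fin 3 × Fin n → ZMod 2)) b := by
    intro x hx hx'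
    by_cases h0 : x = 0
    · rw [h0, zero_dotProduct]
    · exfalso
      apply hy1 x h0 hx
      funext p
      have := hx' (Pi.single p 1) trivial
      rwa [dotProduct_single_one] at this
  obtain ⟨u₀, -, hu₀⟩ := Sym.exists_shift (lt_trans one_pos ht)
    (H' := fixer ι Γ (equiv_fun (C.value C.out))) (fun x hx1 hx2 => by
      obtain ⟨u, hu, hne⟩ := hmid C.out x hx1 hx2
      exact ⟨u, fixer_view_le ι C Γ C.out hu, hne⟩) hinv
  refine ⟨u₀, fun u => ?_⟩
  have h := value_shift ι C Γ y ht hmid C.out _ (Sym.mat y *ᵥ (u + u₀)) hu₀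
  have e : Sym.mat y *ᵥ (u + u₀) + (b + Sym.mat y *ᵥ u₀) = b + Sym.mat y *ᵥ u := by
    rw [Matrix.mulVec_add, add_comm b, ← add_assoc, add_assoc _ _ (Sym.mat y *ᵥ u₀),
      Sym.add_self_fun, add_zero, add_comm]
  rw [e] at h
  exact h.symm

end Pool.Agent.H429R4.Sem
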