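import Pool.Agent.H429R4.Sem.Main
import Pool.Agent.H429R4.Sem.Few

/-!
# Consequences: randomised circuits, and the number of wild gates of circuits that decide 3-SAT
-/

namespace Pool.Agent.H429R4.Sem

open Finset
open Pool.Agent.H525R2.Sym (Clause Holds IsThreeCNF Satisfiable numTrue bits change)
open Pool.Agent.H525R2

set_option linter.unusedSectionVars false

/-- Under the sign changes that fix the local data at all wild gates, every gate has few views. -/
theorem exists_subgroup {V D L : Type} [DecidableEq V] [Finite V] (C : Circuit (Clause V) D L)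
    (Γ : AddSubgroup (V → ZMod 2)) {m w : ℕ} (hm : 0 < m)
    (hw : ∀ g, Multiset.card (C.wires g) ≤ w) :
    ∃ Γ₀ : AddSubgroup (V → ZMod 2), (∀ g, C.numViews Γ₀ g ≤ 8 * m ^ w) ∧
      Nat.card Γ ≤ (8 * m ^ w) ^ Nat.card {g : C.Gate // m < C.numTransforms Γ g} *
        Nat.card Γ₀ := by
  classical
  let _ := C.finite
  set P : C.Gate → Prop := fun h => C.numTransforms Γ h ≤ m with hP
  let Γ₀ : AddSubgroup (V → ZMod 2) :=
    { carrier := {s | s ∈ Γ ∧ ∀ h, ¬ P h → loc C P h s = loc C P h 0}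
      add_mem' := by
        rintro s s' ⟨hs, h1⟩ ⟨hs', h1'⟩
        refine ⟨Γ.add_mem hs hs', fun h hh => ?_⟩
        rw [equiv_loc C P h s 0 s' (h1 h hh), zero_add, h1' h hh]
      zero_mem' := ⟨Γ.zero_mem, fun _ _ => rfl⟩
      neg_mem' := by
        rintro s ⟨hs, h1⟩
        have : -s = s := by
          rw [neg_eq_iff_add_eq_zero, add_self_sign]
        rw [this]
        exact ⟨hs, h1⟩ }
  refine ⟨Γ₀, fun g => ?_, ?_⟩
  · have h1 := card_range_le_of_factor (S := Γ₀) (fun s : Γ₀ => C.view g s.1)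
      (fun (s : Γ₀) => loc C P g s.1) (by
        intro s s' hs
        refine view_eq_of_loc C P g (fun h hh => ?_) hs
        rw [s.2.2 h hh, s'.2.2 h hh])
    refine h1.trans (card_loc_le C Γ₀ hm hw P (fun h hh => ?_) g)
    refine le_trans ?_ hh
    unfold Circuit.numTransforms
    have hfin : Finite (Set.range fun (s : Γ) (φ : Formula V) => C.value h (flip s.1 φ)) :=
      Set.finite_range _
    refine Nat.card_mono hfin ?_
    rintro _ ⟨s, rfl⟩
    exact ⟨⟨s.1, s.2.1⟩, rfl⟩
  · let k : Γ → ({h : C.Gate // m < C.numTransforms Γ h} →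
        Option (Formula V → Bool) × (C.Gate → Option (Formula V → D))) :=
      fun s h => loc C P h.1 s.1
    have hk : Nat.card (Set.range k) ≤
        (8 * m ^ w) ^ Nat.card {g : C.Gate // m < C.numTransforms Γ g} := by
      refine (card_range_pi_le (S := Γ) _).trans ?_
      refine (prod_le_prod' fun h _ => card_loc_le C Γ hm hw P (fun _ h => h) _).trans ?_
      rw [prod_const, card_univ, Nat.card_eq_fintype_card]
    refine le_trans ?_ (Nat.mul_le_mul_right _ hk)
    have hfin : Finite (Set.range k) := Set.finite_range k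
    have hch : ∀ x : Set.range k, ∃ s, k s = x.1 := fun x => x.2
    choose σ hσ using hch
    rw [← Nat.card_prod]
    refine Nat.card_le_card_of_injective
      (fun s : Γ => ((⟨k s, ⟨s, rfl⟩⟩ : Set.range k),
        (⟨s.1 + (σ ⟨k s, ⟨s, rfl⟩⟩).1, Γ.add_mem s.2 (σ _).2, fun h hh => ?_⟩ : Γ₀))) ?_
    · have h1 : k (σ ⟨k s, ⟨s, rfl⟩⟩) = k s := hσ _
      have h2 : loc C P h (σ ⟨k s, ⟨s, rfl⟩⟩).1 = loc C P h s.1 :=
        congrFun h1 ⟨h, not_le.1 hh⟩
      rw [equiv_loc C P h s.1 _ (σ ⟨k s, ⟨s, rfl⟩⟩).1 h2.symm, add_self_sign]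
    · intro s s' e
      rw [Prod.mk.injEq] at e
      have e1 : k s = k s' := congrArg Subtype.val e.1
      have e2 : s.1 + (σ ⟨k s, ⟨s, rfl⟩⟩).1 = s'.1 + (σ ⟨k s', ⟨s', rfl⟩⟩).1 :=
        congrArg Subtype.val e.2
      have e3 : (⟨k s, ⟨s, rfl⟩⟩ : Set.range k) = ⟨k s', ⟨s', rfl⟩⟩ := Subtype.ext e1
      rw [e3] at e2
      exact Subtype.ext (add_right_cancel e2)

/-- The number of wild gates of a circuit that separates the satisfiable formulas from those that
are far from satisfiable. -/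
theorem wild_gates {ε : ℝ} (hε : 0 < ε) :
    ∃ K : ℕ, ∀ (V D L : Type) [Fintype V] [DecidableEq V] (Γ : AddSubgroup (V → ZMod 2))
      (C : Circuit (Clause V) D L) (acc : Set D) (m w : ℕ), 0 < m →
      (∀ g, Multiset.card (C.wires g) ≤ w) →
      (∀ φ, IsThreeCNF φ → Satisfiable φ → C.output (bits φ) ∈ acc) →
      (∀ φ, IsThreeCNF φ → 0 < φ.card → (∀ α, (numTrue α φ : ℝ) ≤ (7 / 8 + ε) * φ.card) →
        C.output (bits φ) ∉ acc) →
      Nat.card Γ ≤ (8 * m ^ w) ^ Nat.card {g : C.Gate // m < C.numTransforms Γ g} *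
        (K * C.size * (8 * m ^ w)) ^ K := by
  classical
  obtain ⟨K, hK⟩ := indistinguishable hε (by norm_num : (0 : ℝ) < 1 / 2)
  refine ⟨K, fun V D L _ _ Γ C acc m w hm hw hsat hfar => ?_⟩
  obtain ⟨Γ₀, h1, h2⟩ := exists_subgroup C Γ hm hw
  refine h2.trans (Nat.mul_le_mul_left _ ?_)
  by_contra hcon
  rw [not_le] at hcon
  have hsize : 0 < C.size := by
    let _ := C.finite
    have : 0 < Fintype.card C.Gate := Fintype.card_pos_iff.2 ⟨C.out⟩
    exact this
  have hpos : 1 ≤ C.size * (8 * m ^ w) := Nat.mul_pos hsize (by positivity)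
  have htot : C.totalViews Γ₀ ≤ C.size * (8 * m ^ w) := by
    let _ := C.finite
    unfold Circuit.totalViews
    refine (sum_le_sum fun g _ => h1 g).trans (le_of_eq ?_)
    rw [sum_const, smul_eq_mul]
    rfl
  obtain ⟨Ω, _, _, φ, ψ, h3, h4⟩ := hK V Γ₀ (lt_of_le_of_lt (Nat.pow_le_pow_left (by
    calc K = K * 1 := (mul_one K).symm
      _ ≤ K * (C.size * (8 * m ^ w)) := Nat.mul_le_mul_left K hpos
      _ = K * C.size * (8 * m ^ w) := by ring) K) hcon)
  have h5 := h4 D L C acc (lt_of_le_of_lt (Nat.pow_le_pow_left (by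
    rw [mul_assoc]
    exact Nat.mul_le_mul_left K htot) K) hcon)
  have h6 : (univ.filter fun ω => C.output (bits (φ ω)) ∈ acc) = univ := by
    rw [filter_eq_self]
    intro ω _
    exact hsat _ (h3 ω).1 (h3 ω).2.2.2.2.2.1
  have h7 : (univ.filter fun ω => C.output (bits (ψ ω)) ∈ acc) = ∅ := by
    rw [filter_eq_empty_iff]
    intro ω _
    exact hfar _ (h3 ω).2.1 (h3 ω).2.2.2.1 (h3 ω).2.2.2.2.2.2
  have h8 : (0 : ℝ) < Fintype.card Ω := by exact_mod_cast Fintype.card_pos
  have h9 := h5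
  rw [h6, h7] at h9
  rw [card_univ, card_empty, Nat.cast_zero, sub_zero, abs_of_pos h8] at h9
  linarith

end Pool.Agent.H429R4.Sem
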